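import Pool.Agent.W192.HK.Parts

/-!
# Project HK, part MAINP (adapted from `Pool.Agent.W856.CM.Mainp`)
-/

set_option autoImplicit false

namespace Pool.Agent.W60.HK.Mainp

open Finset
open Pool.Agent.W192.HK
open Pool.Agent.W192.CY (VW)

section main

variable {R : Subring ℂ}

theorem nm_nonneg (I : Ideal R) : 0 ≤ nm I := Nat.cast_nonneg _

/-- basic facts -/
structure BF (R : Subring ℂ) : Prop where
  ded : IsDedekindDomain R
  bot : nm (⊥ : Ideal R) = 0
  one_le : ∀ I : Ideal R, I ≠ ⊥ → 1 ≤ nm I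
  mul : ∀ I J : Ideal R, nm (I * J) = nm I * nm J
  dvd : ∀ I J : Ideal R, I ≠ ⊥ → J ∣ I → nm J ≤ nm I
  top : ∀ I : Ideal R, nm I = 1 ↔ I = ⊤
  summ : Summable (fun I : Ideal R => nm I ^ (-(2 : ℝ)))
  divf : ∀ I : Ideal R, I ≠ ⊥ → {J : Ideal R | J ∣ I}.Finite

theorem bf (h1 : H_BASIC) (h2 : H_CNT) (h3 : H_DIVR) {ω : ℂ} (hR : QR R ω) : BF R := by
  obtain ⟨-, a1, a2, a3, -, a4, a5, -, -⟩ := h1 R ω hR
  obtain ⟨-, b1, -⟩ := h2 R ω hR
  obtain ⟨C, -, c1⟩ := h3 R ω hR 1 one_pos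
  exact ⟨hR.ded, a1, a2, a3, a4, a5, b1 2 one_lt_two, fun I hI => (c1 I hI).1⟩

theorem dvd_nm (h : BF R) {I J : Ideal R} (hI : I ≠ ⊥) (hJ : J ∣ I) :
    J ≠ ⊥ ∧ 1 ≤ nm J ∧ nm J ≤ nm I := by
  have h0 : J ≠ ⊥ := by
    rintro rfl
    apply hI
    rw [← Ideal.zero_eq_bot] at hJ ⊢
    exact zero_dvd_iff.1 hJ
  exact ⟨h0, h.one_le J h0, h.dvd I J hI hJ⟩

theorem summ_exp (h : BF R) {X : ℝ} (hX : 0 < X) :
    Summable (fun I : Ideal R => Real.exp (-(nm I / X))) := by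
  classical
  have hs : Summable (fun I : Ideal R => 2 * X ^ 2 * nm I ^ (-(2 : ℝ)) +
      (if I = ⊥ then (1 : ℝ) else 0)) := by
    refine (h.summ.mul_left (2 * X ^ 2)).add ?_
    exact summable_of_ne_finset_zero (s := {(⊥ : Ideal R)}) fun I hI => by
      rw [if_neg]
      simpa using hI
  refine Summable.of_nonneg_of_le (fun _ => (Real.exp_pos _).le) (fun I => ?_) hs
  by_cases hI : I = ⊥
  · subst hI
    rw [if_pos rfl, h.bot, zero_div, neg_zero, Real.exp_zero]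
    have : 0 ≤ 2 * X ^ 2 * (0 : ℝ) ^ (-(2 : ℝ)) := by
      rw [Real.zero_rpow (by norm_num)]
      simp
    linarith
  · rw [if_neg hI, add_zero]
    have h5 := h.one_le I hI
    have h5' : 0 < nm I := by linarith
    have h6 := Real.pow_div_factorial_le_exp (nm I / X) (by positivity) 2
    have h7 : ((Nat.factorial 2 : ℕ) : ℝ) = 2 := by norm_num [Nat.factorial]
    rw [h7] at h6
    rw [Real.exp_neg, Real.rpow_neg h5'.le]
    have h8 : (nm I : ℝ) ^ (2 : ℝ) = nm I ^ 2 := by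
      rw [← Real.rpow_natCast]; norm_num
    rw [h8]
    have h9 : 0 < (nm I / X) ^ 2 / 2 := by positivity
    calc (Real.exp (nm I / X))⁻¹ ≤ ((nm I / X) ^ 2 / 2)⁻¹ := inv_anti₀ h9 h6
      _ = 2 * X ^ 2 * (nm I ^ 2)⁻¹ := by
          field_simp

open scoped Classical in
/-- the coefficients -/
noncomputable def aa (V : ℝ → ℝ) (m : Ideal R → ℝ) (X : ℝ) (S : Finset (Ideal R))
    (I : Ideal R) : ℝ :=
  ∑ J ∈ S.filter (fun J => J ≠ ⊥ ∧ J ∣ I), m J * V (nm I / (nm J * X))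

/-- the weights -/
noncomputable def hh (V : ℝ → ℝ) (m : Ideal R → ℝ) (g : Ideal R → ℂ) (X : ℝ)
    (S : Finset (Ideal R)) (I : Ideal R) : ℂ :=
  g I / (nm I : ℂ) * (aa V m X S I : ℂ)

theorem filt_eq (h : BF R) {B : ℝ} {S : Finset (Ideal R)}
    (hS : ∀ J, J ∈ S ↔ nm J ≤ B) {I : Ideal R} (hI : I ≠ ⊥) (hIB : nm I ≤ B)
    (hfin : {J : Ideal R | J ∣ I}.Finite) :
    (open scoped Classical in S.filter (fun J => J ≠ ⊥ ∧ J ∣ I)) = hfin.toFinset := by
  classical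
  ext J
  rw [mem_filter, Set.Finite.mem_toFinset, Set.mem_ofPred_eq, hS]
  constructor
  · exact fun h => h.2.2
  · intro h'
    obtain ⟨h2, _, h4⟩ := dvd_nm h hI h'
    exact ⟨h4.trans hIB, h2, h'⟩

theorem card_filt {S : Finset (Ideal R)} {I : Ideal R} (hfin : {J : Ideal R | J ∣ I}.Finite) :
    ((open scoped Classical in S.filter (fun J => J ≠ ⊥ ∧ J ∣ I)).card : ℝ) ≤
      (Set.ncard {J : Ideal R | J ∣ I} : ℝ) := by
  classical
  have h2 : ((S.filter (fun J => J ≠ ⊥ ∧ J ∣ I) : Finset (Ideal R)) : Set (Ideal R)) ⊆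
      {J : Ideal R | J ∣ I} :=
    fun J hJ => (mem_filter.1 (mem_coe.1 hJ)).2.2
  have h3 := Set.ncard_le_ncard h2 hfin
  rw [Set.ncard_coe_finset] at h3
  exact_mod_cast h3

theorem top_ne_bot' (h : BF R) : (⊤ : Ideal R) ≠ ⊥ := by
  intro h1
  have h2 := (h.top ⊤).2 rfl
  rw [h1, h.bot] at h2
  exact zero_ne_one h2

theorem sum_m (h : BF R) {m : Ideal R → ℝ} (hm : Mu R m) {I : Ideal R} (hI : I ≠ ⊥)
    (hfin : {J : Ideal R | J ∣ I}.Finite) :
    ∑ J ∈ hfin.toFinset, m J = (open scoped Classical in if I = ⊤ then (1 : ℝ) else 0) := by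
  classical
  split_ifs with hIt
  · subst hIt
    have h2 : hfin.toFinset = {⊤} := by
      ext J
      rw [Set.Finite.mem_toFinset, Set.mem_ofPred_eq, mem_singleton]
      constructor
      · intro hJ
        obtain ⟨_, h5, h6⟩ := dvd_nm h hI hJ
        rw [(h.top ⊤).2 rfl] at h6
        exact (h.top J).1 (le_antisymm h6 h5)
      · rintro rfl
        exact dvd_rfl
    rw [h2, sum_singleton, hm.top]
  · rw [← finsum_mem_eq_finite_toFinset_sum _ hfin, hm.sum I hI hIt]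

theorem aa_top (V : ℝ → ℝ) (h : BF R) {m : Ideal R → ℝ} (hm : Mu R m)
    {B X : ℝ} (hB : 1 ≤ B) {S : Finset (Ideal R)} (hS : ∀ J, J ∈ S ↔ nm J ≤ B) :
    aa V m X S ⊤ = V (1 / X) := by
  classical
  have h0 := top_ne_bot' h
  have h1 : nm (⊤ : Ideal R) = 1 := (h.top ⊤).2 rfl
  have hfin := h.divf ⊤ h0
  unfold aa
  rw [filt_eq h hS h0 (by rw [h1]; exact hB) hfin]
  have h4 : ∀ J ∈ hfin.toFinset, m J * V (nm (⊤ : Ideal R) / (nm J * X)) =
      m J * V (1 / X) := by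
    intro J hJ
    rw [Set.Finite.mem_toFinset, Set.mem_ofPred_eq] at hJ
    obtain ⟨_, h5, h6⟩ := dvd_nm h h0 hJ
    have h7 : nm J = 1 := le_antisymm (h6.trans h1.le) h5
    rw [h7, h1, one_mul]
  rw [sum_congr rfl h4, ← sum_mul, sum_m h hm h0 hfin, if_pos rfl, one_mul]

theorem aa_small {V : ℝ → ℝ} {CV : ℝ} (hV : VW V CV) (h : BF R)
    {m : Ideal R → ℝ} (hm : Mu R m)
    {B X : ℝ} (hX : 0 < X) {S : Finset (Ideal R)} (hS : ∀ J, J ∈ S ↔ nm J ≤ B) {I : Ideal R}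
    (hI : I ≠ ⊥) (hIt : I ≠ ⊤) (hIB : nm I ≤ B) (hfin : {J : Ideal R | J ∣ I}.Finite) :
    |aa V m X S I| ≤ (Set.ncard {J : Ideal R | J ∣ I} : ℝ) * (CV * (nm I / X)) := by
  classical
  unfold aa
  rw [filt_eq h hS hI hIB hfin]
  have h4 : ∑ J ∈ hfin.toFinset, m J * V (nm I / (nm J * X)) =
      ∑ J ∈ hfin.toFinset, m J * (V (nm I / (nm J * X)) - 1) := by
    simp only [mul_sub, mul_one, sum_sub_distrib]
    rw [sum_m h hm hI hfin, if_neg hIt, sub_zero]
  rw [h4, Set.ncard_eq_toFinset_card _ hfin, ← nsmul_eq_mul]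
  refine (abs_sum_le_sum_abs _ _).trans (sum_le_card_nsmul _ _ _ fun J hJ => ?_)
  rw [Set.Finite.mem_toFinset, Set.mem_ofPred_eq] at hJ
  obtain ⟨_, h5, _⟩ := dvd_nm h hI hJ
  have h6 : 0 ≤ nm I / (nm J * X) := div_nonneg (nm_nonneg _) (mul_nonneg (nm_nonneg _) hX.le)
  have h7 : nm I / (nm J * X) ≤ nm I / X :=
    div_le_div_of_nonneg_left (nm_nonneg _) hX (le_mul_of_one_le_left hX.le h5)
  rw [abs_mul]
  have h8 : |V (nm I / (nm J * X)) - 1| ≤ CV * (nm I / X) := by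
    rw [abs_sub_comm]
    exact (hV.one _ h6).trans (mul_le_mul_of_nonneg_left h7 hV.pos.le)
  calc |m J| * |V (nm I / (nm J * X)) - 1| ≤ 1 * (CV * (nm I / X)) :=
        mul_le_mul (hm.le J) h8 (abs_nonneg _) zero_le_one
    _ = _ := one_mul _

theorem aa_large {V : ℝ → ℝ} {CV : ℝ} (hV : VW V CV) (h : BF R)
    {m : Ideal R → ℝ} (hm : Mu R m)
    {B X : ℝ} (hX : 0 < X) {S : Finset (Ideal R)} (hS : ∀ J, J ∈ S ↔ nm J ≤ B) {I : Ideal R}
    (hI : I ≠ ⊥) (hfin : {J : Ideal R | J ∣ I}.Finite) :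
    |aa V m X S I| ≤ (Set.ncard {J : Ideal R | J ∣ I} : ℝ) *
      (CV * Real.exp (-(nm I / (B * (2 * X))))) := by
  classical
  unfold aa
  refine (abs_sum_le_sum_abs _ _).trans ?_
  have h4 : ∀ J ∈ S.filter (fun J => J ≠ ⊥ ∧ J ∣ I),
      |m J * V (nm I / (nm J * X))| ≤ CV * Real.exp (-(nm I / (B * (2 * X)))) := by
    intro J hJ
    rw [mem_filter, hS] at hJ
    obtain ⟨_, h5, _⟩ := dvd_nm h hI hJ.2.2
    rw [abs_mul]
    have h60 : 0 ≤ nm I / (nm J * X) := div_nonneg (nm_nonneg _) (mul_nonneg (nm_nonneg _) hX.le)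
    have h6 : |V (nm I / (nm J * X))| ≤ CV * Real.exp (-(nm I / (B * (2 * X)))) := by
      refine (hV.dec _ h60).trans (mul_le_mul_of_nonneg_left ?_ hV.pos.le)
      apply Real.exp_le_exp.2
      apply neg_le_neg
      have h61 : nm I / (nm J * X) / 2 = nm I / (nm J * (2 * X)) := by
        rw [div_div]; congr 1; ring
      rw [h61]
      exact div_le_div_of_nonneg_left (nm_nonneg _) (by positivity)
        (mul_le_mul_of_nonneg_right hJ.1 (by positivity))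
    calc |m J| * |V (nm I / (nm J * X))| ≤ 1 * (CV * Real.exp (-(nm I / (B * (2 * X))))) :=
          mul_le_mul (hm.le J) h6 (abs_nonneg _) zero_le_one
      _ = _ := one_mul _
  refine (sum_le_card_nsmul _ _ _ h4).trans ?_
  rw [nsmul_eq_mul]
  exact mul_le_mul_of_nonneg_right (card_filt hfin) (mul_nonneg hV.pos.le (Real.exp_pos _).le)

theorem g_le (h : BF R) {g : Ideal R → ℂ} (hg : Gd R g) {I : Ideal R} (hI : I ≠ ⊥) :
    ‖g I / (nm I : ℂ)‖ ≤ (nm I) ^ (-1 / 2 : ℝ) := by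
  have h5 := h.one_le I hI
  have h5' : 0 < nm I := by linarith
  rw [norm_div, Complex.norm_real, Real.norm_of_nonneg (nm_nonneg _), div_le_iff₀ h5']
  refine (hg.le I).trans ?_
  rw [Real.sqrt_eq_rpow, ← Real.rpow_add_one h5'.ne']
  norm_num

/-- the product of the mollifier and the smoothed sum -/
theorem prod_hasSum {V : ℝ → ℝ} {CV : ℝ} (hV : VW V CV) (h : BF R) {m : Ideal R → ℝ}
    {g : Ideal R → ℂ} (hg : Gd R g) {X : ℝ} (hX : 0 < X) (S : Finset (Ideal R))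
    (ev : Ideal R → ℂ) (hev : ∀ I J : Ideal R, ev (I * J) = ev I * ev J)
    (hev1 : ∀ I, ‖ev I‖ ≤ 1) :
    HasSum (fun I : Ideal R => ev I * hh V m g X S I)
      ((∑ J ∈ S, ev J * ((m J : ℂ) * g J) / (nm J : ℂ)) *
        ∑' I : Ideal R, ev I * g I / (nm I : ℂ) * (V (nm I / X) : ℂ)) := by
  classical
  have hded := h.ded
  have hsm : Summable (fun I : Ideal R => ev I * g I / (nm I : ℂ) * (V (nm I / X) : ℂ)) := by
    refine Summable.of_norm_bounded ((summ_exp h (show 0 < 2 * X by positivity)).mul_left CV)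
      fun I => ?_
    rw [norm_mul, Complex.norm_real, Real.norm_eq_abs]
    have hdv : |V (nm I / X)| ≤ CV * Real.exp (-(nm I / (2 * X))) := by
      have := hV.dec (nm I / X) (div_nonneg (nm_nonneg _) hX.le)
      have h61 : nm I / X / 2 = nm I / (2 * X) := by
        rw [div_div]; congr 1; ring
      rwa [h61] at this
    refine (mul_le_of_le_one_left (abs_nonneg _) ?_).trans hdv
    by_cases hI : I = ⊥
    · rw [hI, hg.zero]; simp
    · have h5 := h.one_le I hI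
      rw [mul_div_assoc, norm_mul]
      have h7 := g_le h hg hI
      have h8 : (nm I) ^ (-1 / 2 : ℝ) ≤ 1 :=
        Real.rpow_le_one_of_one_le_of_nonpos h5 (by norm_num)
      calc ‖ev I‖ * ‖g I / (nm I : ℂ)‖ ≤ 1 * 1 :=
            mul_le_mul (hev1 I) (h7.trans h8) (norm_nonneg _) zero_le_one
        _ = _ := one_mul _
  rw [sum_mul]
  have hterm : ∀ I : Ideal R, ev I * hh V m g X S I = ∑ J ∈ S, (if J ≠ ⊥ ∧ J ∣ I then
      ev I * (g I / (nm I : ℂ)) * ((m J * V (nm I / (nm J * X)) : ℝ) : ℂ) else 0) := by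
    intro I
    unfold hh aa
    rw [Complex.ofReal_sum, ← mul_assoc, mul_sum, sum_filter]
  simp only [hterm]
  refine hasSum_sum fun J _ => ?_
  by_cases hJ : J = ⊥
  · subst hJ
    rw [hg.zero]
    simp only [ne_eq, not_true_eq_false, false_and, if_false, mul_zero, zero_div, zero_mul]
    exact hasSum_zero
  · have hJ0 : J ≠ 0 := by rw [Ideal.zero_eq_bot]; exact hJ
    have hinj : Function.Injective (fun I : Ideal R => J * I) := mul_right_injective₀ hJ0
    rw [← hinj.hasSum_iff (fun I hI => by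
      rw [if_neg]
      rintro ⟨_, A, hA⟩
      exact hI ⟨A, hA.symm⟩)]
    have h5 := h.one_le J hJ
    have h6 := (hsm.hasSum.mul_left (ev J * ((m J : ℂ) * g J) / (nm J : ℂ)))
    refine h6.congr_fun fun I => ?_
    show (if J ≠ ⊥ ∧ J ∣ J * I then _ else (0 : ℂ)) = _
    rw [if_pos ⟨hJ, dvd_mul_right J I⟩, hev, hg.mul, h.mul]
    have h7 : nm J * nm I / (nm J * X) = nm I / X := by
      field_simp
    rw [h7]
    push_cast
    by_cases hI : I = ⊥
    · rw [hI, hg.zero]; simp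
    · have h8 : (nm I : ℂ) ≠ 0 := by
        have := h.one_le I hI
        exact_mod_cast (by linarith : nm I ≠ 0)
      have h9 : (nm J : ℂ) ≠ 0 := by exact_mod_cast (by linarith : nm J ≠ 0)
      field_simp

theorem mol_smo {V : ℝ → ℝ} {CV : ℝ} (hV : VW V CV) (h : BF R) {m : Ideal R → ℝ}
    {g : Ideal R → ℂ} (hg : Gd R g) {B X : ℝ} (hX : 0 < X) {S : Finset (Ideal R)}
    (hS : ∀ J, J ∈ S ↔ nm J ≤ B) (ev : Ideal R → ℂ)
    (hev : ∀ I J : Ideal R, ev (I * J) = ev I * ev J) (hev1 : ∀ I, ‖ev I‖ ≤ 1) :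
    Summable (fun I : Ideal R => ev I * hh V m g X S I) ∧
    mol m g B ev * smo V g X ev = ∑' I : Ideal R, ev I * hh V m g X S I := by
  classical
  have h' := prod_hasSum (m := m) hV h hg hX S ev hev hev1
  refine ⟨h'.summable, ?_⟩
  rw [h'.tsum_eq]
  have h5 : mol m g B ev = ∑ J ∈ S, ev J * ((m J : ℂ) * g J) / (nm J : ℂ) := by
    unfold mol
    rw [tsum_eq_sum (s := S)]
    · refine sum_congr rfl fun J hJ => ?_
      rw [if_pos ((hS J).1 hJ)]
    · intro J hJ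
      rw [if_neg (fun h => hJ ((hS J).2 h))]
  rw [h5]
  rfl

open scoped Classical in
/-- indicator of the ideals with `χ(I)^k = 1` -/
noncomputable def ind (χ : Ideal R → ℂ) (k : ℕ) (I : Ideal R) : ℝ :=
  if χ I ≠ 0 ∧ χ I ^ k = 1 then 1 else 0

theorem ind_le (χ : Ideal R → ℂ) (k : ℕ) (I : Ideal R) : ind χ k I ≤ 1 := by
  unfold ind
  split_ifs <;> norm_num

/-- the main estimate -/
theorem pe {V : ℝ → ℝ} {CV : ℝ} (hV : VW V CV) (h : BF R) {m : Ideal R → ℝ} (hm : Mu R m)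
    {g : Ideal R → ℂ} (hg : Gd R g) (η C1 C2 : ℝ) (hη1 : η < 1 / 8) (hC1pos : 0 < C1)
    (hC1 : ∀ I : Ideal R, I ≠ ⊥ → (Set.ncard {J : Ideal R | J ∣ I} : ℝ) ≤ C1 * (nm I) ^ η)
    {B X : ℝ} (hB : 1 ≤ B) (hX : 0 < X) {S : Finset (Ideal R)} (hS : ∀ J, J ∈ S ↔ nm J ≤ B)
    (hScard : (S.card : ℝ) ≤ C2 * B)
    (χ : Ideal R → ℂ) (k : ℕ) (A : Ideal R → ℂ) (hA : ∀ I, ‖A I‖ ≤ ind χ k I)
    (hAu : A ⊤ = 1) :
    ‖∑' I : Ideal R, A I * hh V m g X S I - (V (1 / X) : ℂ)‖ ≤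
      CV * (C1 * C2 * (B ^ 2 / X)) + CV * C1 * tailI χ k B (B * (2 * X)) η := by
  classical
  have hCV := hV.pos
  have h0 := top_ne_bot' h
  have h1 : nm (⊤ : Ideal R) = 1 := (h.top ⊤).2 rfl
  -- splitting
  let p1 : Ideal R → ℂ := fun I => if I = ⊤ then (V (1 / X) : ℂ) else 0
  let p2 : Ideal R → ℂ := fun I => if I = ⊤ then 0 else A I * hh V m g X S I
  have hp : ∀ I, A I * hh V m g X S I = p1 I + p2 I := by
    intro I
    show _ = (if I = ⊤ then (V (1 / X) : ℂ) else 0) +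
      (if I = ⊤ then 0 else A I * hh V m g X S I)
    split_ifs with h'
    · rw [add_zero, h', hAu, one_mul]
      unfold hh
      rw [aa_top V h hm hB hS, hg.one, h1]
      push_cast
      ring
    · rw [zero_add]
  have hs1 : HasSum p1 (V (1 / X) : ℂ) := by
    have := hasSum_ite_eq (⊤ : Ideal R) (V (1 / X) : ℂ)
    exact this
  let f1 : Ideal R → ℝ := fun I => if nm I ≤ B then CV * (C1 * (B / X)) else 0
  let tf : Ideal R → ℝ := fun I => if B < nm I ∧ χ I ≠ 0 ∧ χ I ^ k = 1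
    then (nm I) ^ (-1 / 2 + η) * Real.exp (-(nm I / (B * (2 * X))))
    else 0
  have htf0 : ∀ I, 0 ≤ tf I := by
    intro I
    show 0 ≤ ite _ _ _
    split_ifs
    · exact mul_nonneg (Real.rpow_nonneg (nm_nonneg _) _) (Real.exp_pos _).le
    · exact le_rfl
  have hf10 : ∀ I, 0 ≤ f1 I := by
    intro I
    show 0 ≤ ite _ _ _
    split_ifs
    · positivity
    · exact le_rfl
  have hstf : Summable tf := by
    refine Summable.of_nonneg_of_le htf0 (fun I => ?_)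
      (summ_exp h (show 0 < B * (2 * X) by positivity))
    show ite _ _ _ ≤ _
    split_ifs with h'
    · have h5 : (1 : ℝ) ≤ nm I := hB.trans h'.1.le
      have h6 : (nm I) ^ (-1 / 2 + η) ≤ 1 :=
        Real.rpow_le_one_of_one_le_of_nonpos h5 (by linarith)
      exact mul_le_of_le_one_left (Real.exp_pos _).le h6
    · exact (Real.exp_pos _).le
  have hsf1 : HasSum f1 (∑ I ∈ S, f1 I) := by
    refine hasSum_sum_of_ne_finset_zero fun I hI => ?_
    show ite _ _ _ = _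
    rw [if_neg (fun h => hI ((hS I).2 h))]
  have hsum1 : ∑ I ∈ S, f1 I ≤ CV * (C1 * C2 * (B ^ 2 / X)) := by
    have h5 : ∑ I ∈ S, f1 I ≤ S.card • (CV * (C1 * (B / X))) := by
      refine sum_le_card_nsmul _ _ _ fun I hI => ?_
      show ite _ _ _ ≤ _
      rw [if_pos ((hS I).1 hI)]
    rw [nsmul_eq_mul] at h5
    calc ∑ I ∈ S, f1 I ≤ S.card * (CV * (C1 * (B / X))) := h5
      _ ≤ (C2 * B) * (CV * (C1 * (B / X))) := mul_le_mul_of_nonneg_right hScard (by positivity)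
      _ = _ := by ring
  have hbd : ∀ I, ‖p2 I‖ ≤ f1 I + CV * C1 * tf I := by
    intro I
    have hnn : 0 ≤ f1 I + CV * C1 * tf I :=
      add_nonneg (hf10 I) (mul_nonneg (mul_nonneg hCV.le hC1pos.le) (htf0 I))
    by_cases hu : I = ⊤
    · show ‖ite _ _ _‖ ≤ _
      rw [if_pos hu, norm_zero]
      exact hnn
    by_cases hI : I = ⊥
    · have : p2 I = 0 := by
        show ite _ _ _ = _
        rw [if_neg hu]
        unfold hh
        rw [hI, hg.zero]
        simp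
      rw [this, norm_zero]
      exact hnn
    have hp2 : p2 I = A I * hh V m g X S I := if_neg hu
    rw [hp2, norm_mul]
    have hfin := h.divf I hI
    have h5 := h.one_le I hI
    have h5' : 0 < nm I := by linarith
    have h6 := g_le h hg hI
    have h7 : ‖hh V m g X S I‖ ≤ (nm I) ^ (-1 / 2 : ℝ) * |aa V m X S I| := by
      unfold hh
      rw [norm_mul, Complex.norm_real, Real.norm_eq_abs]
      exact mul_le_mul_of_nonneg_right h6 (abs_nonneg _)
    have hpos : 0 ≤ (nm I) ^ (-1 / 2 : ℝ) := Real.rpow_nonneg (nm_nonneg _) _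
    by_cases hIB : nm I ≤ B
    · have h8 := aa_small hV h hm hX hS hI hu hIB hfin
      have h9 := hC1 I hI
      have h10 : ‖hh V m g X S I‖ ≤ CV * (C1 * (B / X)) := by
        refine h7.trans ?_
        calc (nm I) ^ (-1 / 2 : ℝ) * |aa V m X S I| ≤
              (nm I) ^ (-1 / 2 : ℝ) * ((C1 * (nm I) ^ η) * (CV * (nm I / X))) := by
              apply mul_le_mul_of_nonneg_left _ hpos
              refine h8.trans (mul_le_mul_of_nonneg_right h9 ?_)
              exact mul_nonneg hCV.le (div_nonneg (nm_nonneg _) hX.le)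
          _ = CV * (C1 * ((nm I) ^ (-1 / 2 : ℝ) * (nm I) ^ η * nm I / X)) := by ring
          _ = CV * (C1 * ((nm I) ^ (-1 / 2 + η + 1 : ℝ) / X)) := by
              rw [Real.rpow_add h5', Real.rpow_add h5', Real.rpow_one]
          _ ≤ CV * (C1 * (nm I / X)) := by
              apply mul_le_mul_of_nonneg_left _ hCV.le
              apply mul_le_mul_of_nonneg_left _ hC1pos.le
              apply div_le_div_of_nonneg_right _ hX.le
              conv_rhs => rw [← Real.rpow_one (nm I)]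
              exact Real.rpow_le_rpow_of_exponent_le h5 (by linarith)
          _ ≤ CV * (C1 * (B / X)) := by
              apply mul_le_mul_of_nonneg_left _ hCV.le
              apply mul_le_mul_of_nonneg_left _ hC1pos.le
              exact div_le_div_of_nonneg_right hIB hX.le
      have h11 : ‖A I‖ ≤ 1 := (hA I).trans (ind_le _ _ _)
      have h12 : f1 I = CV * (C1 * (B / X)) := if_pos hIB
      have h13 : 0 ≤ CV * C1 * tf I := mul_nonneg (mul_nonneg hCV.le hC1pos.le) (htf0 I)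
      calc ‖A I‖ * ‖hh V m g X S I‖ ≤ 1 * (CV * (C1 * (B / X))) :=
            mul_le_mul h11 h10 (norm_nonneg _) zero_le_one
        _ ≤ _ := by rw [h12]; linarith
    · by_cases hH : χ I ≠ 0 ∧ χ I ^ k = 1
      · have h8 := aa_large hV h hm hX hS hI hfin
        have h9 := hC1 I hI
        have h10 : ‖hh V m g X S I‖ ≤ CV * C1 * tf I := by
          refine h7.trans ?_
          have h11 : tf I = (nm I) ^ (-1 / 2 + η) * Real.exp (-(nm I / (B * (2 * X)))) :=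
            if_pos ⟨not_le.1 hIB, hH⟩
          rw [h11]
          calc (nm I) ^ (-1 / 2 : ℝ) * |aa V m X S I| ≤
                (nm I) ^ (-1 / 2 : ℝ) *
                  ((C1 * (nm I) ^ η) * (CV * Real.exp (-(nm I / (B * (2 * X)))))) := by
                apply mul_le_mul_of_nonneg_left _ hpos
                refine h8.trans (mul_le_mul_of_nonneg_right h9 ?_)
                exact mul_nonneg hCV.le (Real.exp_pos _).le
            _ = CV * C1 * (((nm I) ^ (-1 / 2 : ℝ) * (nm I) ^ η) *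
                  Real.exp (-(nm I / (B * (2 * X))))) := by ring
            _ = _ := by rw [Real.rpow_add h5']
        have h11 : ‖A I‖ ≤ 1 := (hA I).trans (ind_le _ _ _)
        calc ‖A I‖ * ‖hh V m g X S I‖ ≤ 1 * (CV * C1 * tf I) :=
              mul_le_mul h11 h10 (norm_nonneg _) zero_le_one
          _ ≤ _ := by have := hf10 I; linarith
      · have h8 : ind χ k I = 0 := if_neg hH
        have h9 : ‖A I‖ = 0 := le_antisymm ((hA I).trans h8.le) (norm_nonneg _)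
        rw [h9, zero_mul]
        exact hnn
  have hsb : HasSum (fun I => f1 I + CV * C1 * tf I) (∑ I ∈ S, f1 I + CV * C1 * ∑' I, tf I) :=
    hsf1.add (hstf.hasSum.mul_left (CV * C1))
  have hsp2 : Summable p2 := Summable.of_norm_bounded hsb.summable hbd
  have hn2 : ‖∑' I, p2 I‖ ≤ ∑ I ∈ S, f1 I + CV * C1 * ∑' I, tf I := tsum_of_norm_bounded hsb hbd
  have htsum : ∑' I : Ideal R, A I * hh V m g X S I = (V (1 / X) : ℂ) + ∑' I, p2 I := by
    rw [tsum_congr hp, hs1.summable.tsum_add hsp2, hs1.tsum_eq]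
  rw [htsum, add_sub_cancel_left]
  refine hn2.trans (add_le_add hsum1 (le_of_eq ?_))
  rfl


open scoped Classical in
/-- the averaged character -/
noncomputable def AA (χ : Ideal R → ℂ) (k t : ℕ) (I : Ideal R) : ℂ :=
  if χ I ≠ 0 ∧ χ I ^ k = 1 then χ I ^ t else 0

theorem norm_chi {χ : Ideal R → ℂ} {d : ℕ} (hd : Od χ d) {I : Ideal R} (hI : χ I ≠ 0) :
    ‖χ I‖ = 1 :=
  Complex.norm_eq_one_of_pow_eq_one (hd.pow I hI) hd.pos.ne'

theorem AA_norm {χ : Ideal R → ℂ} {d : ℕ} (hd : Od χ d) (k t : ℕ) (I : Ideal R) :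
    ‖AA χ k t I‖ ≤ ind χ k I := by
  unfold AA ind
  split_ifs with h
  · rw [norm_pow, norm_chi hd h.1, one_pow]
  · rw [norm_zero]

theorem chi_top (h : BF R) {c : Ideal R} {χ : Ideal R → ℂ} (hχ : RC c χ) : χ ⊤ = 1 := by
  have h1 : χ ⊤ ≠ 0 := by
    intro h0
    rw [hχ.zero] at h0
    rcases h0 with h0 | h0
    · exact top_ne_bot' h h0
    · apply h0
      rw [← Ideal.one_eq_top]
      exact isCoprime_one_left
  have h2 := hχ.mul ⊤ ⊤
  rw [← Ideal.one_eq_top, mul_one] at h2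
  rw [← Ideal.one_eq_top] at h1 ⊢
  exact mul_left_cancel₀ h1 (by rw [← h2, mul_one])

theorem AA_top (h : BF R) {c : Ideal R} {χ : Ideal R → ℂ} (hχ : RC c χ) (k t : ℕ) :
    AA χ k t ⊤ = 1 := by
  unfold AA
  rw [chi_top h hχ, one_pow, one_pow, if_pos ⟨one_ne_zero, rfl⟩]

theorem pw_mul {c : Ideal R} {χ : Ideal R → ℂ} (hχ : RC c χ) (a : ℕ) (I J : Ideal R) :
    pw χ a (I * J) = pw χ a I * pw χ a J := by
  unfold pw
  rw [hχ.mul]
  by_cases h1 : χ I = 0
  · simp [h1]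
  · by_cases h2 : χ J = 0
    · simp [h2]
    · rw [if_neg (mul_ne_zero h1 h2), if_neg h1, if_neg h2, mul_pow]

theorem pw_norm {χ : Ideal R → ℂ} {d : ℕ} (hd : Od χ d) (a : ℕ) (I : Ideal R) :
    ‖pw χ a I‖ ≤ 1 := by
  unfold pw
  split_ifs with h
  · simp
  · rw [norm_pow, norm_chi hd h, one_pow]

theorem pw_per {χ : Ideal R → ℂ} {d : ℕ} (hd : Od χ d) (a : ℕ) : pw χ (a + d) = pw χ a := by
  funext I
  unfold pw
  split_ifs with h
  · rfl
  · rw [pow_add, hd.pow I h, mul_one]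

theorem sum_pw {χ : Ideal R → ℂ} {d : ℕ} (hd : Od χ d) (k e t : ℕ) (hke : k * e = d)
    (I : Ideal R) : ∑ j ∈ Finset.range e, pw χ (t + k * j) I = (e : ℂ) * AA χ k t I := by
  unfold pw AA
  by_cases h : χ I = 0
  · simp [h]
  · by_cases h2 : χ I ^ k = 1
    · rw [if_pos ⟨h, h2⟩]
      simp only [if_neg h]
      have : ∀ j ∈ Finset.range e, χ I ^ (t + k * j) = χ I ^ t := by
        intro j _
        rw [pow_add, pow_mul, h2, one_pow, mul_one]
      rw [sum_congr rfl this, sum_const, card_range, nsmul_eq_mul]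
    · rw [if_neg (fun h3 => h2 h3.2), mul_zero]
      simp only [if_neg h]
      have : ∀ j ∈ Finset.range e, χ I ^ (t + k * j) = χ I ^ t * (χ I ^ k) ^ j := by
        intro j _
        rw [pow_add, pow_mul]
      rw [sum_congr rfl this, ← mul_sum, geom_sum_eq h2, ← pow_mul, hke, hd.pow I h, sub_self,
        zero_div, mul_zero]

/-- the double sum for one `r` -/
theorem one_r {V : ℝ → ℝ} {CV : ℝ} (hV : VW V CV) (h : BF R) {m : Ideal R → ℝ}
    {g : Ideal R → ℂ} (hg : Gd R g) {B X : ℝ} (hX : 0 < X) {S : Finset (Ideal R)}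
    (hS : ∀ J, J ∈ S ↔ nm J ≤ B) {c : Ideal R} {χ : Ideal R → ℂ} (hχ : RC c χ) {d : ℕ}
    (hd : Od χ d) (t k e : ℕ) (hke : k * e = d) :
    ∑ j ∈ Finset.range e, mol m g B (pw χ (t + k * j)) * smo V g X (pw χ (t + k * j)) =
      (e : ℂ) * ∑' I : Ideal R, AA χ k t I * hh V m g X S I := by
  classical
  rw [sum_congr rfl (fun j _ => (mol_smo hV h hg hX hS (pw χ (t + k * j)) (pw_mul hχ _)
    (pw_norm hd _)).2), ← Summable.tsum_finsetSum (fun j _ => (mol_smo hV h hg hX hS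
      (pw χ (t + k * j)) (pw_mul hχ _) (pw_norm hd _)).1), ← tsum_mul_left]
  refine tsum_congr fun I => ?_
  rw [← sum_mul, sum_pw hd k e t hke]
  ring

end main

theorem h_mainp (h1 : H_BASIC) (h2 : H_CNT) (h3 : H_DIVR) (h4 : H_TAIL) (h5 : H_MOB)
    (h0 : Pool.Agent.W192.CY.S_DIV) : H_MAINP := by
  classical
  intro V CV hV R ω hR m g hm hg ε hε hε4
  have hCV := hV.pos
  have h := bf h1 h2 h3 hR
  obtain ⟨η, δ0, C0, hη, hη8, hδ0, hC0, htail⟩ := h4 R ω hR ε hε hε4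
  obtain ⟨C1, hC1pos, hdiv⟩ := h3 R ω hR η hη
  obtain ⟨hfinS, -, C2, hC2pos, hcnt, hC3⟩ := h2 R ω hR
  obtain ⟨ρ, hρ, hρ1, hρ2⟩ : ∃ ρ : ℝ, 0 < ρ ∧ 2 * ρ ≤ δ0 ∧ 2 * ρ ≤ 1 / 2 := by
    refine ⟨min δ0 (1 / 2) / 2, by positivity, ?_, ?_⟩
    · linarith [min_le_left δ0 (1 / 2)]
    · linarith [min_le_right δ0 (1 / 2)]
  obtain ⟨Cb, hCb, hdivb, _⟩ := h0 ρ hρ
  refine ⟨ρ, Cb * C2 ^ ρ * (CV * (2 * C1 * C2) + CV * C1 * C0) + 2 * CV, 1, hρ, by positivity, ?_⟩
  intro c χ hχ hN1 d hd hdq M hM1 hMd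
  obtain ⟨N, hN⟩ : ∃ N : ℝ, N = nm c := ⟨_, rfl⟩
  rw [← hN] at hN1 hdq ⊢
  have hNpos : 0 < N := by linarith
  obtain ⟨t, -, hmob⟩ := h5 d M hd.pos hM1 hMd
  obtain ⟨X, hXdef⟩ : ∃ X : ℝ, X = N ^ (2 / 3 : ℝ) / 2 := ⟨_, rfl⟩
  have hX2 : 2 * X = N ^ (2 / 3 : ℝ) := by rw [hXdef]; ring
  have hX : 0 < X := by rw [hXdef]; positivity
  obtain ⟨B, hBdef⟩ : ∃ B : ℝ, B = N ^ (ε / 2) := ⟨_, rfl⟩
  have hB : 1 ≤ B := by rw [hBdef]; exact Real.one_le_rpow hN1 (by positivity)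
  obtain ⟨S, hS⟩ : ∃ S : Finset (Ideal R), ∀ J, J ∈ S ↔ nm J ≤ B := by
    refine ⟨(hfinS B).toFinset, fun J => ?_⟩
    rw [Set.Finite.mem_toFinset]
    rfl
  have hScard : (S.card : ℝ) ≤ C2 * B := by
    have h7 := hcnt B hB
    have h8 : {J : Ideal R | nm J ≤ B} = (S : Set (Ideal R)) := by
      ext J
      rw [mem_coe, hS]
      rfl
    rw [h8, Set.ncard_coe_finset] at h7
    exact h7
  have hdpos : 0 < d := hd.pos
  have hdR : (0 : ℝ) < d := by exact_mod_cast hdpos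
  have hdle : (d : ℝ) ≤ C2 * N := by
    rw [hN]
    exact (hC3 c χ hχ d hd).1
  -- the divisors
  obtain ⟨RR, hRdef⟩ : ∃ RR : Finset ℕ, RR = d.divisors.filter
    (fun r => Nat.Coprime r M) := ⟨_, rfl⟩
  have hRd : ∀ r ∈ RR, (r * M) ∣ d := by
    intro r hr
    rw [hRdef, mem_filter, Nat.mem_divisors] at hr
    exact Nat.Coprime.mul_dvd_of_dvd_of_dvd hr.2 hr.1.1 hMd
  have hRcard : RR.card ≤ d.divisors.card := by
    rw [hRdef]
    exact card_filter_le _ _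
  have hEm : ((Ea d M).card : ℂ) = ∑ r ∈ RR, ((ArithmeticFunction.moebius r : ℤ) : ℂ) *
      ((d / (r * M) : ℕ) : ℂ) := by
    have g1 := hmob (fun _ => 1) (fun _ => rfl)
    rw [← hRdef] at g1
    simp only [sum_const, nsmul_eq_mul, mul_one, card_range] at g1
    exact g1
  have hEmle : ((Ea d M).card : ℝ) ≤ d := by
    have g1 : (Ea d M).card ≤ (Finset.range d).card := card_filter_le _ _
    rw [card_range] at g1
    exact_mod_cast g1
  obtain ⟨P, hP⟩ : ∃ P : ℕ → ℂ, ∀ r, P r =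
      ∑' I : Ideal R, AA χ (r * M) (t r) I * hh V m g X S I := ⟨_, fun _ => rfl⟩
  have hsum : ∑ a ∈ Ea d M, mol m g B (pw χ a) * smo V g X (pw χ a) =
      ∑ r ∈ RR, ((ArithmeticFunction.moebius r : ℤ) : ℂ) *
        (((d / (r * M) : ℕ) : ℂ) * P r) := by
    rw [hmob (fun a => mol m g B (pw χ a) * smo V g X (pw χ a))
      (fun a => by simp only [pw_per hd]), ← hRdef]
    refine sum_congr rfl fun r hr => ?_
    rw [one_r hV h hg hX hS hχ hd (t r) (r * M) _ (Nat.mul_div_cancel' (hRd r hr)), hP]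
  rw [← hXdef, ← hBdef, hsum, hEm]
  have hT : ∀ r ∈ RR, ((d / (r * M) : ℕ) : ℝ) * ‖P r - (V (1 / X) : ℂ)‖ ≤
      CV * (C1 * C2 * (d * (B ^ 2 / X))) + CV * C1 * (C0 * d * N ^ (-δ0)) := by
    intro r hr
    obtain ⟨e, he⟩ : ∃ e : ℕ, e = d / (r * M) := ⟨_, rfl⟩
    have hrd := hRd r hr
    have hed : e ∣ d := by rw [he]; exact Nat.div_dvd_of_dvd hrd
    have hde : d / e = r * M := by rw [he]; exact Nat.div_div_self hrd hdpos.ne'
    rw [hP, ← he]
    have hele : (e : ℝ) ≤ d := by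
      exact_mod_cast Nat.le_of_dvd hdpos hed
    have b1 := pe hV h hm hg η C1 C2 hη8 hC1pos (fun I hI => (hdiv I hI).2)
      hB hX hS hScard χ (r * M) (AA χ (r * M) (t r)) (AA_norm hd _ _)
      (AA_top h hχ _ _)
    have b2 := (htail c χ hχ d hd (by rw [← hN]; exact hdq) e hed).2
    rw [← hN, hde] at b2
    have b3 : B * (2 * X) = N ^ (2 / 3 + ε / 2) := by
      rw [hBdef, hX2, ← Real.rpow_add hNpos]
      congr 1
      ring
    rw [b3] at b1
    rw [← hBdef] at b2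
    calc (e : ℝ) * ‖∑' I : Ideal R, AA χ (r * M) (t r) I * hh V m g X S I -
          (V (1 / X) : ℂ)‖ ≤
          e * (CV * (C1 * C2 * (B ^ 2 / X)) +
            CV * C1 * tailI χ (r * M) B (N ^ (2 / 3 + ε / 2)) η) := by
          gcongr
      _ = CV * (C1 * C2 * (e * (B ^ 2 / X))) +
            CV * C1 * (e * tailI χ (r * M) B (N ^ (2 / 3 + ε / 2)) η) := by ring
      _ ≤ CV * (C1 * C2 * (d * (B ^ 2 / X))) + CV * C1 * (C0 * d * N ^ (-δ0)) := by gcongr
  have hsplit : ∑ r ∈ RR, ((ArithmeticFunction.moebius r : ℤ) : ℂ) *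
        (((d / (r * M) : ℕ) : ℂ) * P r) -
      ∑ r ∈ RR, ((ArithmeticFunction.moebius r : ℤ) : ℂ) * ((d / (r * M) : ℕ) : ℂ) =
      ∑ r ∈ RR, ((ArithmeticFunction.moebius r : ℤ) : ℂ) *
        (((d / (r * M) : ℕ) : ℂ) * (P r - (V (1 / X) : ℂ))) +
      ((V (1 / X) : ℂ) - 1) * ((Ea d M).card : ℂ) := by
    rw [hEm, mul_sum, ← sum_add_distrib, ← sum_sub_distrib]
    refine sum_congr rfl (fun e _ => ?_)
    ring
  rw [hsplit]
  have hE1 : ‖(V (1 / X) : ℂ) - 1‖ ≤ CV * (1 / X) := by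
    have g2 : (V (1 / X) : ℂ) - 1 = ((V (1 / X) - 1 : ℝ) : ℂ) := by push_cast; rfl
    rw [g2, Complex.norm_real, Real.norm_eq_abs, abs_sub_comm]
    exact hV.one _ (by positivity)
  have hτ : (RR.card : ℝ) ≤ Cb * C2 ^ ρ * N ^ ρ := by
    have g0 : (RR.card : ℝ) ≤ (d.divisors.card : ℝ) := by
      exact_mod_cast hRcard
    refine g0.trans ((hdivb d hdpos).trans ?_)
    rw [mul_assoc, ← Real.mul_rpow hC2pos.le hNpos.le]
    gcongr
  have hmain : ‖∑ r ∈ RR, ((ArithmeticFunction.moebius r : ℤ) : ℂ) *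
        (((d / (r * M) : ℕ) : ℂ) * (P r - (V (1 / X) : ℂ)))‖ ≤
      RR.card * (CV * (C1 * C2 * (d * (B ^ 2 / X))) + CV * C1 * (C0 * d * N ^ (-δ0))) := by
    refine (norm_sum_le _ _).trans ?_
    rw [← nsmul_eq_mul]
    refine sum_le_card_nsmul _ _ _ fun r hr => ?_
    rw [norm_mul, norm_mul, Complex.norm_natCast, Complex.norm_intCast]
    have g1 : |((ArithmeticFunction.moebius r : ℤ) : ℝ)| ≤ 1 := by
      have := ArithmeticFunction.abs_moebius_le_one (n := r)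
      exact_mod_cast this
    refine (mul_le_of_le_one_left ?_ g1).trans (hT r hr)
    positivity
  -- numerical estimates
  have hn1 : B ^ 2 / X ≤ 2 * N ^ (-(2 * ρ)) := by
    have hn0 : B ^ 2 / X = 2 * (B ^ 2 / N ^ (2 / 3 : ℝ)) := by
      rw [hXdef]
      field_simp
    rw [hn0, hBdef, ← Real.rpow_natCast, ← Real.rpow_mul hNpos.le, ← Real.rpow_sub hNpos]
    apply mul_le_mul_of_nonneg_left _ (by norm_num)
    apply Real.rpow_le_rpow_of_exponent_le hN1
    push_cast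
    linarith
  have hn2 : N ^ (-δ0) ≤ N ^ (-(2 * ρ)) :=
    Real.rpow_le_rpow_of_exponent_le hN1 (by linarith)
  have hn3 : 1 / X ≤ 2 * N ^ (-ρ) := by
    have hn0 : 1 / X = 2 * (N ^ (2 / 3 : ℝ))⁻¹ := by
      rw [hXdef]
      field_simp
    rw [hn0, ← Real.rpow_neg hNpos.le]
    apply mul_le_mul_of_nonneg_left _ (by norm_num)
    exact Real.rpow_le_rpow_of_exponent_le hN1 (by linarith)
  have hn4 : N ^ ρ * N ^ (-(2 * ρ)) = N ^ (-ρ) := by
    rw [← Real.rpow_add hNpos]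
    congr 1
    ring
  have hQ : 0 < N ^ (-ρ) := by positivity
  have hC2ρ : 0 < C2 ^ ρ := by positivity
  calc _ ≤ RR.card * (CV * (C1 * C2 * (d * (B ^ 2 / X))) + CV * C1 * (C0 * d * N ^ (-δ0))) +
        CV * (1 / X) * ((Ea d M).card : ℝ) := by
        refine (norm_add_le _ _).trans (add_le_add hmain ?_)
        rw [norm_mul, Complex.norm_natCast]
        gcongr
    _ ≤ (Cb * C2 ^ ρ * N ^ ρ) * (CV * (C1 * C2 * (d * (2 * N ^ (-(2 * ρ))))) +
          CV * C1 * (C0 * d * N ^ (-(2 * ρ)))) + CV * (2 * N ^ (-ρ)) * d := by gcongr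
    _ = Cb * C2 ^ ρ * (CV * (2 * C1 * C2) + CV * C1 * C0) * d * (N ^ ρ * N ^ (-(2 * ρ))) +
          2 * CV * N ^ (-ρ) * d := by ring
    _ = (Cb * C2 ^ ρ * (CV * (2 * C1 * C2) + CV * C1 * C0) + 2 * CV) * d * N ^ (-ρ) := by
          rw [hn4]; ring

end Pool.Agent.W60.HK.Mainp
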